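import Pool.Agent.W619.Y.Stm11
import Pool.Agent.W619.TW.Hyp

/-! Pluricanonical forms with prescribed zeros on a curve of genus at least two. -/

set_option autoImplicit false
set_option linter.overlappingInstances false
set_option linter.unusedSectionVars false

universe u v

open FF IntermediateField Pool.Agent.W619.PQ Pool.Agent.W619.PL Pool.Agent.W619.TW
  Pool.Agent.W603.LV Pool.Agent.W619.Y

namespace Pool.Agent.W704.PG.VAN

theorem canDeg_pos {k : Type v} {L : Type u} [Field k] [CharZero k] [IsAlgClosed k]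
    [Field L] [Algebra k L] (F : IntermediateField k L) [IsFF k F]
    (hrat : ¬ ∃ t : F, k⟮t⟯ = ⊤) (hell : ¬ IsElliptic F) : 0 < canDeg k F := by
  classical
  have h0 := canDeg_nonneg (k := k) (E0 := F) hrat
  rcases h0.lt_or_eq with h1 | h1
  · exact h1
  exfalso
  apply hell
  have hD : der k F ≠ 0 := der_ne
  obtain ⟨f, hf0, hf⟩ := exists_regular hrat hD
  set T : Finset (Place k F) := (finite_support (k := k) f).toFinset ∪ (vo_finite hD).toFinset
    with hT
  have hs1 : ∑ q ∈ T, q.ord f = 0 := sum_ord_finset f T fun q hq =>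
    Finset.mem_union_left _ ((finite_support (k := k) f).mem_toFinset.2 hq)
  have hs2 : ∑ q ∈ T, vo q (der k F) = - canDeg k F := canDeg_finset hD T fun q hq =>
    Finset.mem_union_right _ ((vo_finite hD).mem_toFinset.2 hq)
  have hs3 : ∑ q ∈ T, vo q (der k F) = ∑ q ∈ T, q.ord f := by
    rw [hs1, hs2, ← h1, neg_zero]
  have heq := (Finset.sum_eq_sum_iff_of_le fun q (_ : q ∈ T) => hf q).1 hs3
  have hall : ∀ q : Place k F, vo q (der k F) = q.ord f := by
    intro q
    by_cases hq : q ∈ T
    · exact heq q hq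
    · rw [hT, Finset.mem_union] at hq
      push Not at hq
      have h2 : q.ord f = 0 := by
        by_contra h
        exact hq.1 ((finite_support (k := k) f).mem_toFinset.2 h)
      have h3 : vo q (der k F) = 0 := by
        by_contra h
        exact hq.2 ((vo_finite hD).mem_toFinset.2 h)
      rw [h2, h3]
  refine ⟨f⁻¹ • der k F, fun w t ht => ?_⟩
  have h4 := der_pi_ne_zero hD w ht
  rw [Derivation.coe_smul, Pi.smul_apply, smul_eq_mul]
  refine ⟨mul_ne_zero (inv_ne_zero hf0) h4, ?_⟩
  rw [w.ord_mul (inv_ne_zero hf0) h4, w.ord_inv, vo_eq w ht hD, hall w]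
  ring

theorem main : S_VAN := by
  intro k L _ _ _ _ _ F _ hrat hell H
  classical
  have hD0 : der k F ≠ 0 := der_ne
  obtain ⟨x, hx⟩ := IsFF.exists_transcendental (k := k) (K := F)
  have hDx : der k F x ≠ 0 := der_ne_zero hD0 hx
  have hpos := canDeg_pos F hrat hell
  set Δ : Place k F →₀ ℤ := ∑ h ∈ H, polar (k := k) h with hΔ
  have hΔle : ∀ h ∈ H, ∀ q : Place k F, - q.ord h ≤ Δ q := by
    intro h hh q
    rw [hΔ, Finsupp.finsetSum_apply]
    have h1 : polar (k := k) h q ≤ ∑ h ∈ H, polar (k := k) h q :=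
      Finset.single_le_sum (f := fun h => polar (k := k) h q)
        (fun h _ => by
          have := polar_nonneg (k := k) h q
          exact this) hh
    refine le_trans ?_ h1
    rw [polar_apply]
    exact le_max_left _ _
  let C : Place k F →₀ ℤ := Finsupp.ofSupportFinite (fun q => - vo q (der k F))
    ((vo_finite hD0).subset fun q hq => by
      simpa using hq)
  have hC : ∀ q, C q = - vo q (der k F) := fun q => rfl
  have hCdeg : ddeg C = canDeg k F := by
    unfold ddeg
    rw [Finsupp.sum_of_support_subset (s := (vo_finite hD0).toFinset) _ (fun q hq => by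
      rw [Finsupp.mem_support_iff, hC] at hq
      rw [Set.Finite.mem_toFinset]
      intro h
      exact hq (by rw [h, neg_zero])) _ (by intros; simp)]
    have h1 : ∀ q ∈ (vo_finite hD0).toFinset, C q * (q.deg : ℤ) = - vo q (der k F) := by
      intro q _
      rw [deg_one, hC]; simp
    rw [Finset.sum_congr rfl h1, Finset.sum_neg_distrib,
      canDeg_finset hD0 _ fun q hq => (vo_finite hD0).mem_toFinset.2 hq, neg_neg]
  obtain ⟨γ, N, hrr, -⟩ := riemann (k := k) (K := F)
  set m : ℕ := (γ + ddeg Δ + 1).toNat + 1 with hm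
  have hm1 : γ + ddeg Δ + 1 ≤ m := by
    have := Int.self_le_toNat (γ + ddeg Δ + 1)
    rw [hm]; push_cast; omega
  have h2 := hrr (m • C - Δ)
  rw [ddeg_sub, ddeg_nsmul, hCdeg] at h2
  have h3 : (m : ℤ) * 1 ≤ m * canDeg k F :=
    mul_le_mul_of_nonneg_left (by omega) (by positivity)
  obtain ⟨f, hf, hf0⟩ := exists_ne_zero_of_ell_pos (D := m • C - Δ) (by linarith)
  have hf := (mem_LL.1 hf).resolve_left hf0
  have hford : ∀ q : Place k F, m * vo q (der k F) + Δ q ≤ q.ord f := by
    intro q
    have h4 := hf q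
    rw [Finsupp.sub_apply, Finsupp.smul_apply, nsmul_eq_mul, hC] at h4
    linarith
  refine ⟨m, fun D => f * (D 0 x / der k F x) ^ m, by omega, ?_, ?_, ?_⟩
  · intro A D
    simp only [Fin.sum_univ_one, Matrix.det_fin_one]
    rw [Derivation.coe_smul, Pi.smul_apply, smul_eq_mul]
    rw [mul_div_assoc, mul_pow]
    ring
  · refine ⟨fun _ => der k F, ?_⟩
    simp only [div_self hDx, one_pow, mul_one]
    exact hf0
  · intro h hh q D hD
    obtain ⟨g, hg⟩ := der_smul (D' := D 0) hD0
    have hgx : D 0 x / der k F x = g := by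
      rw [hg, Derivation.coe_smul, Pi.smul_apply, smul_eq_mul]
      field_simp
    show q.Reg (h * (f * (D 0 x / der k F x) ^ m))
    rw [hgx]
    by_cases hg0 : g = 0
    · left
      rw [hg0, zero_pow (by omega), mul_zero, mul_zero]
    by_cases hh0 : h = 0
    · left
      rw [hh0, zero_mul]
    right
    have h5 : q.Reg (D 0 (unif q)) := hD 0 (unif q) (Or.inr (by rw [ord_unif]; norm_num))
    have h6 : der k F (unif q) ≠ 0 := der_pi_ne_zero hD0 q (ord_unif q)
    rw [hg, Derivation.coe_smul, Pi.smul_apply, smul_eq_mul] at h5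
    have h7 := h5.resolve_left (mul_ne_zero hg0 h6)
    rw [q.ord_mul hg0 h6] at h7
    have h8 : 0 ≤ q.ord g + vo q (der k F) := h7
    rw [q.ord_mul hh0 (mul_ne_zero hf0 (pow_ne_zero _ hg0)), q.ord_mul hf0 (pow_ne_zero _ hg0),
      q.ord_pow]
    have h9 := hford q
    have h10 := hΔle h hh q
    have h11 : (0 : ℤ) ≤ m * (q.ord g + vo q (der k F)) := mul_nonneg (by positivity) h8
    rw [mul_add] at h11
    linarith

end Pool.Agent.W704.PG.VAN
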